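import Mathlib

/-!
# There is no universal countable projective algebra of plane sets

Every projective algebra of plane sets in which all countable projective algebras embed has at
least `2 ^ ℵ₀` members; already the algebras generated by four plane sets do not embed in a
smaller one.

Proof. Let `a n = b n = n + 1`. The sets `S = {(a n, b n)}`, `T = {(a (n + 1), b n)}` and
`P = {(a 0, 0)}` generate all the one-point sets `{(a n, 0)}`: the set `{(0, b n)}` is the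
projection of `S ∩ ({(a n, 0)} ⊗ Y)`, and `{(a (n + 1), 0)}` is the projection of
`T ∩ (X ⊗ {(0, b n)})`. For a set `N` of natural numbers let `Q N = {(a n, 0) : n ∈ N}`. An
embedding of the algebra generated by `S`, `T`, `P` and `Q N` in `U` maps the generators to four
members of `U`, and `N` is determined by these four members, as `n ∈ N` if and only if
`{(a n, 0)} ∩ Q N` is not empty, and the set `{(a n, 0)}` is given by a term in `S`, `T`, `P`.
-/

set_option autoImplicit false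

namespace Pool.Agent.Results.MP_3db952_lc.NoUniversal

open Set
open Cardinal hiding univ

/-- The Euclidean plane. -/
abbrev Plane : Type := ℝ × ℝ

/-- The axis `X = {(x, 0)}`. -/
def axisX : Set Plane := {p | p.2 = 0}

/-- The axis `Y = {(0, y)}`. -/
def axisY : Set Plane := {p | p.1 = 0}

/-- `π₁ S = {(x, 0) : ∃ y, (x, y) ∈ S}`. -/
def proj₁ (S : Set Plane) : Set Plane := {p | p.2 = 0 ∧ ∃ y : ℝ, (p.1, y) ∈ S}

/-- `π₂ S = {(0, y) : ∃ x, (x, y) ∈ S}`. -/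
def proj₂ (S : Set Plane) : Set Plane := {p | p.1 = 0 ∧ ∃ x : ℝ, (x, p.2) ∈ S}

/-- The direct product `A ⊗ B = {(x, y) : (x, 0) ∈ A, (0, y) ∈ B}` (it is only used for `A ⊆ X`
and `B ⊆ Y`). -/
def tensor (A B : Set Plane) : Set Plane := {p | (p.1, (0 : ℝ)) ∈ A ∧ ((0 : ℝ), p.2) ∈ B}

/-- A projective algebra: a family of plane sets closed under finite unions and intersections
(the empty union and the empty intersection included), complements in the plane, `π₁`, `π₂` and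
the products `A ⊗ B` with `A ⊆ X` and `B ⊆ Y`. -/
structure IsProjectiveAlgebra (𝒜 : Set (Set Plane)) : Prop where
  empty_mem : ∅ ∈ 𝒜
  univ_mem : univ ∈ 𝒜
  union_mem : ∀ A ∈ 𝒜, ∀ B ∈ 𝒜, A ∪ B ∈ 𝒜
  inter_mem : ∀ A ∈ 𝒜, ∀ B ∈ 𝒜, A ∩ B ∈ 𝒜
  compl_mem : ∀ A ∈ 𝒜, Aᶜ ∈ 𝒜
  proj₁_mem : ∀ A ∈ 𝒜, proj₁ A ∈ 𝒜
  proj₂_mem : ∀ A ∈ 𝒜, proj₂ A ∈ 𝒜
  tensor_mem : ∀ A ∈ 𝒜, ∀ B ∈ 𝒜, A ⊆ axisX → B ⊆ axisY → tensor A B ∈ 𝒜

/-- `f` restricts to an isomorphism of `𝒜` onto `ℬ`: a bijection of `𝒜` onto `ℬ` that preserves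
the Boolean operations, `π₁`, `π₂` and the products `A ⊗ B` with `A ⊆ X` and `B ⊆ Y`. -/
structure IsIso (f : Set Plane → Set Plane) (𝒜 ℬ : Set (Set Plane)) : Prop where
  bijOn : BijOn f 𝒜 ℬ
  map_union : ∀ A ∈ 𝒜, ∀ B ∈ 𝒜, f (A ∪ B) = f A ∪ f B
  map_inter : ∀ A ∈ 𝒜, ∀ B ∈ 𝒜, f (A ∩ B) = f A ∩ f B
  map_compl : ∀ A ∈ 𝒜, f Aᶜ = (f A)ᶜ
  map_proj₁ : ∀ A ∈ 𝒜, f (proj₁ A) = proj₁ (f A)
  map_proj₂ : ∀ A ∈ 𝒜, f (proj₂ A) = proj₂ (f A)
  map_tensor : ∀ A ∈ 𝒜, ∀ B ∈ 𝒜, A ⊆ axisX → B ⊆ axisY → f (tensor A B) = tensor (f A) (f B)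

/-- `𝒜` embeds in `𝒰`: it is isomorphic to a subalgebra `ℬ` of `𝒰`. -/
def Embeds (𝒜 𝒰 : Set (Set Plane)) : Prop :=
  ∃ ℬ ⊆ 𝒰, IsProjectiveAlgebra ℬ ∧ ∃ f, IsIso f 𝒜 ℬ

/-- `𝒜` is generated by the sets `g i`: it is the smallest projective algebra that contains
them. -/
def IsGeneratedBy {ι : Type} (g : ι → Set Plane) (𝒜 : Set (Set Plane)) : Prop :=
  (∀ i, g i ∈ 𝒜) ∧ ∀ ℬ, IsProjectiveAlgebra ℬ → (∀ i, g i ∈ ℬ) → 𝒜 ⊆ ℬ

/-! ### The algebra generated by countably many sets -/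

/-- The terms. -/
inductive Term : Type
  | gen (i : ℕ) : Term
  | bot : Term
  | top : Term
  | union (s t : Term) : Term
  | inter (s t : Term) : Term
  | compl (s : Term) : Term
  | p₁ (s : Term) : Term
  | p₂ (s : Term) : Term
  | prod (s t : Term) : Term
  deriving Countable

/-- The value of a term. -/
def Term.eval (g : ℕ → Set Plane) : Term → Set Plane
  | .gen i => g i
  | .bot => ∅
  | .top => univ
  | .union s t => s.eval g ∪ t.eval g
  | .inter s t => s.eval g ∩ t.eval g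
  | .compl s => (s.eval g)ᶜ
  | .p₁ s => proj₁ (s.eval g)
  | .p₂ s => proj₂ (s.eval g)
  | .prod s t => tensor (s.eval g) (t.eval g)

/-- The algebra generated by the sets `g i`. -/
def gen (g : ℕ → Set Plane) : Set (Set Plane) := range (Term.eval g)

theorem gen_countable (g : ℕ → Set Plane) : (gen g).Countable := countable_range _

theorem gen_alg (g : ℕ → Set Plane) : IsProjectiveAlgebra (gen g) where
  empty_mem := ⟨.bot, rfl⟩
  univ_mem := ⟨.top, rfl⟩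
  union_mem := by rintro _ ⟨s, rfl⟩ _ ⟨t, rfl⟩; exact ⟨.union s t, rfl⟩
  inter_mem := by rintro _ ⟨s, rfl⟩ _ ⟨t, rfl⟩; exact ⟨.inter s t, rfl⟩
  compl_mem := by rintro _ ⟨s, rfl⟩; exact ⟨.compl s, rfl⟩
  proj₁_mem := by rintro _ ⟨s, rfl⟩; exact ⟨.p₁ s, rfl⟩
  proj₂_mem := by rintro _ ⟨s, rfl⟩; exact ⟨.p₂ s, rfl⟩
  tensor_mem := by rintro _ ⟨s, rfl⟩ _ ⟨t, rfl⟩ _ _; exact ⟨.prod s t, rfl⟩

theorem proj₁_univ : proj₁ univ = axisX := by ext p; simp [proj₁, axisX]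

theorem proj₂_univ : proj₂ univ = axisY := by ext p; simp [proj₂, axisY]

theorem axisX_mem {𝒜 : Set (Set Plane)} (h : IsProjectiveAlgebra 𝒜) : axisX ∈ 𝒜 :=
  proj₁_univ ▸ h.proj₁_mem _ h.univ_mem

theorem axisY_mem {𝒜 : Set (Set Plane)} (h : IsProjectiveAlgebra 𝒜) : axisY ∈ 𝒜 :=
  proj₂_univ ▸ h.proj₂_mem _ h.univ_mem

theorem tensor_eq (A B : Set Plane) : tensor A B = tensor (A ∩ axisX) (B ∩ axisY) := by
  ext p; simp [tensor, axisX, axisY]

/-- The family of the values of the terms is the algebra generated by the sets `g i`. -/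
theorem gen_le {g : ℕ → Set Plane} {ℬ : Set (Set Plane)} (hB : IsProjectiveAlgebra ℬ)
    (hg : ∀ i, g i ∈ ℬ) : gen g ⊆ ℬ := by
  rintro _ ⟨t, rfl⟩
  induction t with
  | gen i => exact hg i
  | bot => exact hB.empty_mem
  | top => exact hB.univ_mem
  | union s t hs ht => exact hB.union_mem _ hs _ ht
  | inter s t hs ht => exact hB.inter_mem _ hs _ ht
  | compl s hs => exact hB.compl_mem _ hs
  | p₁ s hs => exact hB.proj₁_mem _ hs
  | p₂ s hs => exact hB.proj₂_mem _ hs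
  | prod s t hs ht =>
    show tensor _ _ ∈ ℬ
    rw [tensor_eq]
    exact hB.tensor_mem _ (hB.inter_mem _ hs _ (axisX_mem hB)) _
      (hB.inter_mem _ ht _ (axisY_mem hB)) inter_subset_right inter_subset_right

/-! ### The generators -/

/-- The points `(n + 1, 0)` are obtained from `S`, `T` and `P` by this recursion. -/
def pts (S T P : Set Plane) : ℕ → Set Plane
  | 0 => P
  | n + 1 => proj₁ (T ∩ tensor axisX (proj₂ (S ∩ tensor (pts S T P n) axisY)))

/-- `S = {(n + 1, n + 1)}` -/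
def genS : Set Plane := {p | ∃ n : ℕ, p = ((n : ℝ) + 1, (n : ℝ) + 1)}

/-- `T = {(n + 2, n + 1)}` -/
def genT : Set Plane := {p | ∃ n : ℕ, p = ((n : ℝ) + 2, (n : ℝ) + 1)}

/-- `P = {(1, 0)}` -/
def genP : Set Plane := {((1 : ℝ), (0 : ℝ))}

/-- `Q N = {(n + 1, 0) : n ∈ N}` -/
def genQ (N : Set ℕ) : Set Plane := {p | ∃ n ∈ N, p = ((n : ℝ) + 1, (0 : ℝ))}

theorem pts_gen (n : ℕ) : pts genS genT genP n = {((n : ℝ) + 1, (0 : ℝ))} := by
  induction n with
  | zero => simp [pts, genP]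
  | succ n ih =>
    have h1 : proj₂ (genS ∩ tensor (pts genS genT genP n) axisY) =
        {((0 : ℝ), (n : ℝ) + 1)} := by
      rw [ih]
      ext ⟨x, y⟩
      simp only [proj₂, genS, tensor, axisY, mem_ofPred_eq, mem_inter_iff, mem_singleton_iff,
        Prod.mk.injEq, and_true]
      constructor
      · rintro ⟨rfl, x, ⟨m, h2, h3⟩, h4⟩
        refine ⟨rfl, ?_⟩
        linarith
      · rintro ⟨rfl, rfl⟩
        exact ⟨rfl, (n : ℝ) + 1, ⟨n, rfl, rfl⟩, rfl⟩
    show proj₁ (genT ∩ tensor axisX (proj₂ (genS ∩ tensor (pts genS genT genP n) axisY))) = _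
    rw [h1]
    ext ⟨x, y⟩
    simp only [proj₁, genT, tensor, axisX, mem_ofPred_eq, mem_inter_iff, mem_singleton_iff,
      Prod.mk.injEq, true_and]
    constructor
    · rintro ⟨rfl, y, ⟨m, h2, h3⟩, h4⟩
      refine ⟨?_, rfl⟩
      push_cast
      linarith
    · rintro ⟨h5, rfl⟩
      refine ⟨rfl, (n : ℝ) + 1, ⟨n, ?_, rfl⟩, rfl⟩
      push_cast at h5
      linarith

/-- The four generators. -/
def gens (N : Set ℕ) : Fin 4 → Set Plane := ![genS, genT, genP, genQ N]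

/-- The four generators, as a sequence. -/
def gens' (N : Set ℕ) (i : ℕ) : Set Plane := if h : i < 4 then gens N ⟨i, h⟩ else ∅

/-- The algebra generated by the four generators. -/
def alg (N : Set ℕ) : Set (Set Plane) := gen (gens' N)

theorem mem_alg (N : Set ℕ) (i : Fin 4) : gens N i ∈ alg N := by
  refine ⟨.gen i, ?_⟩
  simp [Term.eval, gens']

theorem alg_generated (N : Set ℕ) : IsGeneratedBy (gens N) (alg N) := by
  refine ⟨mem_alg N, fun ℬ hB h => gen_le hB fun i => ?_⟩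
  unfold gens'
  split_ifs with hi
  · exact h _
  · exact hB.empty_mem

theorem pts_mem {𝒜 : Set (Set Plane)} (h : IsProjectiveAlgebra 𝒜) {S T P : Set Plane}
    (hS : S ∈ 𝒜) (hT : T ∈ 𝒜) (hP : P ∈ 𝒜) (hPX : P ⊆ axisX) (n : ℕ) :
    pts S T P n ∈ 𝒜 ∧ pts S T P n ⊆ axisX := by
  induction n with
  | zero => exact ⟨hP, hPX⟩
  | succ n ih =>
    refine ⟨?_, fun p hp => hp.1⟩
    refine h.proj₁_mem _ (h.inter_mem _ hT _ (h.tensor_mem _ (axisX_mem h) _ ?_ le_rfl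
      fun p hp => hp.1))
    exact h.proj₂_mem _ (h.inter_mem _ hS _ (h.tensor_mem _ ih.1 _ (axisY_mem h) ih.2 le_rfl))

/-- Isomorphisms commute with the terms `pts`. -/
theorem map_pts {𝒜 ℬ : Set (Set Plane)} {f : Set Plane → Set Plane} (hA : IsProjectiveAlgebra 𝒜)
    (hf : IsIso f 𝒜 ℬ) {S T P : Set Plane} (hS : S ∈ 𝒜) (hT : T ∈ 𝒜) (hP : P ∈ 𝒜)
    (hPX : P ⊆ axisX) (n : ℕ) : f (pts S T P n) = pts (f S) (f T) (f P) n := by
  have h1 : f univ = univ := by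
    have h2 := hf.map_union _ hA.empty_mem _ (hA.compl_mem _ hA.empty_mem)
    rw [hf.map_compl _ hA.empty_mem, union_compl_self, union_compl_self] at h2
    exact h2
  have hX : f axisX = axisX := by
    rw [← proj₁_univ, hf.map_proj₁ _ hA.univ_mem, h1]
  have hY : f axisY = axisY := by
    rw [← proj₂_univ, hf.map_proj₂ _ hA.univ_mem, h1]
  induction n with
  | zero => rfl
  | succ n ih =>
    obtain ⟨h3, h4⟩ := pts_mem hA hS hT hP hPX n
    have h5 : tensor (pts S T P n) axisY ∈ 𝒜 := hA.tensor_mem _ h3 _ (axisY_mem hA) h4 le_rfl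
    have h6 : S ∩ tensor (pts S T P n) axisY ∈ 𝒜 := hA.inter_mem _ hS _ h5
    have h7 : proj₂ (S ∩ tensor (pts S T P n) axisY) ∈ 𝒜 := hA.proj₂_mem _ h6
    have h8 : proj₂ (S ∩ tensor (pts S T P n) axisY) ⊆ axisY := fun p hp => hp.1
    have h9 : tensor axisX (proj₂ (S ∩ tensor (pts S T P n) axisY)) ∈ 𝒜 :=
      hA.tensor_mem _ (axisX_mem hA) _ h7 le_rfl h8
    show f (proj₁ (T ∩ tensor axisX (proj₂ (S ∩ tensor (pts S T P n) axisY)))) = _
    rw [hf.map_proj₁ _ (hA.inter_mem _ hT _ h9), hf.map_inter _ hT _ h9,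
      hf.map_tensor _ (axisX_mem hA) _ h7 le_rfl h8, hf.map_proj₂ _ h6, hf.map_inter _ hS _ h5,
      hf.map_tensor _ h3 _ (axisY_mem hA) h4 le_rfl, hX, hY, ih]
    rfl

theorem mem_iff_ne (N : Set ℕ) (n : ℕ) : n ∈ N ↔ pts genS genT genP n ∩ genQ N ≠ ∅ := by
  rw [pts_gen, ← nonempty_iff_ne_empty]
  constructor
  · intro hn
    exact ⟨_, rfl, n, hn, rfl⟩
  · rintro ⟨p, hp, m, hm, rfl⟩
    simp only [mem_singleton_iff, Prod.mk.injEq, and_true] at hp
    have : m = n := by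
      have : (m : ℝ) = n := by linarith
      exact_mod_cast this
    exact this ▸ hm

theorem mem_iff_of_iso {N : Set ℕ} {ℬ : Set (Set Plane)} {f : Set Plane → Set Plane}
    (hf : IsIso f (alg N) ℬ) (n : ℕ) :
    n ∈ N ↔ pts (f genS) (f genT) (f genP) n ∩ f (genQ N) ≠ ∅ := by
  have hA : IsProjectiveAlgebra (alg N) := gen_alg _
  have hS : genS ∈ alg N := mem_alg N 0
  have hT : genT ∈ alg N := mem_alg N 1
  have hP : genP ∈ alg N := mem_alg N 2
  have hQ : genQ N ∈ alg N := mem_alg N 3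
  have hPX : genP ⊆ axisX := by
    intro p hp
    rw [mem_singleton_iff.1 hp]
    rfl
  have h1 := pts_mem hA hS hT hP hPX n
  rw [← map_pts hA hf hS hT hP hPX n, ← hf.map_inter _ h1.1 _ hQ, mem_iff_ne, not_iff_not]
  have h0 : f ∅ = ∅ := by
    have h2 := hf.map_inter _ hA.empty_mem _ (hA.compl_mem _ hA.empty_mem)
    rw [hf.map_compl _ hA.empty_mem, inter_compl_self, inter_compl_self] at h2
    exact h2
  constructor
  · intro h2; rw [h2, h0]
  · intro h2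
    rw [← h0] at h2
    exact hf.bijOn.injOn (hA.inter_mem _ h1.1 _ hQ) hA.empty_mem h2

/-- If all the algebras `alg N` embed in `𝒰`, then `𝒰` has at least `2 ^ ℵ₀` members. -/
theorem card_of_embeds {𝒰 : Set (Set Plane)} (h : ∀ N, Embeds (alg N) 𝒰) : 𝔠 ≤ #𝒰 := by
  choose ℬ hℬ _ f hf using h
  have hmem : ∀ N (i : Fin 4), f N (gens N i) ∈ 𝒰 := fun N i =>
    hℬ N ((hf N).bijOn.mapsTo (mem_alg N i))
  have hinj : Function.Injective
      (fun N : Set ℕ => fun i : Fin 4 => (⟨f N (gens N i), hmem N i⟩ : 𝒰)) := by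
    intro N M h
    have h1 : ∀ i, f N (gens N i) = f M (gens M i) := fun i =>
      congrArg Subtype.val (congrFun h i)
    ext n
    have hS : f N genS = f M genS := h1 0
    have hT : f N genT = f M genT := h1 1
    have hP : f N genP = f M genP := h1 2
    have hQ : f N (genQ N) = f M (genQ M) := h1 3
    rw [mem_iff_of_iso (hf N) n, mem_iff_of_iso (hf M) n, hS, hT, hP, hQ]
  have h2 : #(Set ℕ) ≤ #(Fin 4 → 𝒰) := mk_le_of_injective hinj
  have h3 : #(Set ℕ) = 𝔠 := by rw [mk_set, mk_nat, two_power_aleph0]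
  have h4 : #(Fin 4 → 𝒰) = #𝒰 ^ (4 : ℕ) := by
    rw [← power_def, mk_fin]
    exact power_natCast _ _
  rw [h3, h4] at h2
  rcases lt_or_ge #𝒰 ℵ₀ with hfin | hinf
  · have h5 : #𝒰 ^ (4 : ℕ) < ℵ₀ := by
      have := power_lt_aleph0 hfin (natCast_lt_aleph0 (n := 4))
      rwa [power_natCast] at this
    exact absurd (h2.trans_lt h5) (not_lt.2 aleph0_le_continuum)
  · exact h2.trans (power_nat_le hinf)

/-- **There is no universal countable projective algebra.**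
(1) No countable projective algebra `𝒰` has the property that every countable projective algebra
embeds in it.
(2) Every projective algebra in which all countable projective algebras with four generators embed
has at least `2 ^ ℵ₀` members. -/
theorem result :
    (¬ ∃ 𝒰 : Set (Set Plane), IsProjectiveAlgebra 𝒰 ∧ 𝒰.Countable ∧
      ∀ 𝒜 : Set (Set Plane), IsProjectiveAlgebra 𝒜 → 𝒜.Countable → Embeds 𝒜 𝒰) ∧
    ∀ 𝒰 : Set (Set Plane), IsProjectiveAlgebra 𝒰 →
      (∀ 𝒜 : Set (Set Plane), IsProjectiveAlgebra 𝒜 → 𝒜.Countable →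
        (∃ g : Fin 4 → Set Plane, IsGeneratedBy g 𝒜) → Embeds 𝒜 𝒰) → 𝔠 ≤ #𝒰 := by
  have key : ∀ 𝒰 : Set (Set Plane), (∀ 𝒜 : Set (Set Plane), IsProjectiveAlgebra 𝒜 →
      𝒜.Countable → (∃ g : Fin 4 → Set Plane, IsGeneratedBy g 𝒜) → Embeds 𝒜 𝒰) → 𝔠 ≤ #𝒰 :=
    fun 𝒰 h => card_of_embeds fun N =>
      h _ (gen_alg _) (gen_countable _) ⟨gens N, alg_generated N⟩
  refine ⟨?_, fun 𝒰 _ h => key 𝒰 h⟩
  rintro ⟨𝒰, -, hc, h⟩
  have h1 := key 𝒰 fun 𝒜 hA hA' _ => h 𝒜 hA hA'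
  have h2 : #𝒰 ≤ ℵ₀ := hc.le_aleph0
  exact absurd (h1.trans h2) (not_le.2 aleph0_lt_continuum)

end Pool.Agent.Results.MP_3db952_lc.NoUniversal
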